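import Pool.Agent.H88.B2.Targets

/-!
MP_ee74d2_an, two-ends case, row SLB: separated points in the intersection of transversal slabs.
Page H88_B2.md.
-/

set_option autoImplicit false

namespace Pool.Agent.H36.B2.SLB

open MeasureTheory Set
open Pool.Agent.H83.G Pool.Agent.H88.B2
open Pool.Agent.H22.G4 (nv Ind)
open scoped ENNReal NNReal RealInnerProductSpace

private instance haarY {m : ℕ} : (volume : Measure (E m × ℝ)).IsAddHaarMeasure :=
  inferInstanceAs ((volume : Measure (E m)).prod (volume : Measure ℝ)).IsAddHaarMeasure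

private instance haarZ {m : ℕ} : (volume : Measure (Z m)).IsAddHaarMeasure :=
  inferInstanceAs ((volume : Measure ℝ).prod (volume : Measure (E m × ℝ))).IsAddHaarMeasure

private theorem finrankZ (m : ℕ) : Module.finrank ℝ (Z m) = m + 2 := by
  rw [Module.finrank_prod, Module.finrank_prod, finrank_euclideanSpace, Fintype.card_fin,
    Module.finrank_self]
  ring

private theorem Lo_ph {m : ℕ} (η : E m) (x : Z m) : (Lo η 1 x).1 = ph x (nv η) := by
  unfold Lo ph nv
  simp

private theorem ph_sub {m : ℕ} (x y ζ : Z m) : ph (x - y) ζ = ph x ζ - ph y ζ := by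
  unfold ph
  simp only [Prod.fst_sub, Prod.snd_sub, inner_sub_left]
  ring

private theorem ph_lin {m : ℕ} {ι : Type} (s : Finset ι) (x : Z m) (a : ι → ℝ) (v : ι → Z m) :
    ph x (∑ i ∈ s, a i • v i) = ∑ i ∈ s, a i * ph x (v i) := by
  classical
  induction s using Finset.induction_on with
  | empty => simp [ph]
  | insert i s hi ih =>
    rw [Finset.sum_insert hi, Finset.sum_insert hi, ← ih]
    unfold ph
    simp only [Prod.fst_add, Prod.snd_add, Prod.smul_fst, Prod.smul_snd, inner_add_right,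
      inner_smul_right, smul_eq_mul]
    ring

/-- the null covectors span -/
private theorem span {m : ℕ} {c : ℝ} (hc : 0 < c) {η : Fin (m + 2) → E m} (h : Ind c η)
    (ζ : Z m) : ∃ a : Fin (m + 2) → ℝ, ζ = ∑ i, a i • nv (η i) := by
  let T : (Fin (m + 2) → ℝ) →ₗ[ℝ] Z m := Fintype.linearCombination ℝ fun i => nv (η i)
  have hT : ∀ a, T a = ∑ i, a i • nv (η i) := fun a => Fintype.linearCombination_apply ℝ _ a
  have hinj : Function.Injective T := by
    rw [injective_iff_map_eq_zero]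
    intro a ha
    have h1 := h a
    rw [← hT a, ha, norm_zero] at h1
    have h2 : ∑ i, |a i| ≤ 0 := by
      by_contra hcon
      have := mul_pos hc (not_le.1 hcon)
      linarith
    have h3 : ∑ i, |a i| = 0 := le_antisymm h2 (Finset.sum_nonneg fun i _ => abs_nonneg _)
    rw [Finset.sum_eq_zero_iff_of_nonneg (fun i _ => abs_nonneg _)] at h3
    funext i
    exact abs_eq_zero.1 (h3 i (Finset.mem_univ i))
  have hsurj : Function.Surjective T := by
    refine (LinearMap.injective_iff_surjective_of_finrank_eq_finrank ?_).1 hinj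
    rw [finrankZ, Module.finrank_fintype_fun_eq_card, Fintype.card_fin]
  obtain ⟨a, ha⟩ := hsurj ζ
  exact ⟨a, by rw [← ha, hT]⟩

/-- a vector with small pairings is small -/
private theorem small {m : ℕ} {c r : ℝ} (hc : 0 < c) (hr : 0 ≤ r) {η : Fin (m + 2) → E m}
    (h : Ind c η) (d : Z m) (hd : ∀ i, |ph d (nv (η i))| ≤ 2 * r) : ‖d‖ ≤ 2 * r / c := by
  have h1 : ∀ ζ : Z m, |ph d ζ| ≤ 2 * r / c * ‖ζ‖ := by
    intro ζ
    obtain ⟨a, ha⟩ := span hc h ζ
    have h2 : ph d ζ = ∑ i, a i * ph d (nv (η i)) := by rw [ha, ph_lin]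
    rw [h2]
    have h3 : ∑ i, |a i| ≤ ‖ζ‖ / c := by
      rw [le_div_iff₀ hc, mul_comm]
      rw [ha]
      exact h a
    calc |∑ i, a i * ph d (nv (η i))| ≤ ∑ i, |a i * ph d (nv (η i))| :=
          Finset.abs_sum_le_sum_abs _ _
      _ ≤ ∑ i, |a i| * (2 * r) := by
          refine Finset.sum_le_sum fun i _ => ?_
          rw [abs_mul]
          exact mul_le_mul_of_nonneg_left (hd i) (abs_nonneg _)
      _ = (∑ i, |a i|) * (2 * r) := by rw [Finset.sum_mul]
      _ ≤ (‖ζ‖ / c) * (2 * r) := mul_le_mul_of_nonneg_right h3 (by positivity)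
      _ = 2 * r / c * ‖ζ‖ := by ring
  have hq : 0 ≤ 2 * r / c := by positivity
  rw [Prod.norm_def, Prod.norm_def]
  refine max_le ?_ (max_le ?_ ?_)
  · have h2 := h1 (1, 0, 0)
    have e1 : ph d ((1, 0, 0) : Z m) = d.1 := by simp [ph]
    have e2 : ‖((1, 0, 0) : Z m)‖ = 1 := by simp [Prod.norm_def]
    rw [e1, e2, mul_one] at h2
    exact h2
  · have h2 := h1 (0, d.2.1, 0)
    have e1 : ph d ((0, d.2.1, 0) : Z m) = ‖d.2.1‖ * ‖d.2.1‖ := by
      simp only [ph, mul_zero, zero_add, add_zero]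
      exact real_inner_self_eq_norm_mul_norm _
    have e2 : ‖((0, d.2.1, 0) : Z m)‖ = ‖d.2.1‖ := by simp [Prod.norm_def]
    rw [e1, e2, abs_of_nonneg (by positivity)] at h2
    rcases eq_or_lt_of_le (norm_nonneg d.2.1) with h0 | h0
    · rw [← h0]; exact hq
    · exact le_of_mul_le_mul_right h2 h0
  · have h2 := h1 (0, 0, 1)
    have e1 : ph d ((0, 0, 1) : Z m) = d.2.2 := by simp [ph]
    have e2 : ‖((0, 0, 1) : Z m)‖ = 1 := by simp [Prod.norm_def]
    rw [e1, e2, mul_one] at h2
    exact h2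

/-- separated points in a set of bounded diameter -/
private theorem sepcount {m : ℕ} {w D : ℝ} (hw : 0 < w) (hD : w ≤ D) (Q : Finset (Z m))
    (h : Sepw w Q) (hd : ∀ x ∈ Q, ∀ y ∈ Q, ‖x - y‖ ≤ D) : (Q.card : ℝ) ≤ (3 * D / w) ^ (m + 2) := by
  classical
  have hD0 : 0 < D := hw.trans_le hD
  rcases Q.eq_empty_or_nonempty with rfl | ⟨x0, hx0⟩
  · simp only [Finset.card_empty, Nat.cast_zero]
    positivity
  have hdisj : Set.PairwiseDisjoint (↑Q : Set (Z m)) fun x => Metric.ball x (w / 2) := by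
    intro x hx y hy hxy
    refine Metric.ball_disjoint_ball ?_
    rw [dist_eq_norm]
    have := h x hx y hy hxy
    linarith
  have hsub : (⋃ x ∈ Q, Metric.ball x (w / 2)) ⊆ Metric.ball x0 (3 * D / 2) := by
    refine Set.iUnion₂_subset fun x hx => ?_
    refine Metric.ball_subset_ball' ?_
    rw [dist_eq_norm]
    have := hd x hx x0 hx0
    linarith
  have h1 := measure_mono (μ := (volume : Measure (Z m))) hsub
  rw [measure_biUnion_finset hdisj fun x _ => measurableSet_ball] at h1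
  have h2 : ∀ x : Z m, (volume : Measure (Z m)) (Metric.ball x (w / 2)) =
      ENNReal.ofReal ((w / 2) ^ (m + 2)) * volume (Metric.ball (0 : Z m) 1) := by
    intro x
    rw [Measure.addHaar_ball _ _ (by positivity), finrankZ]
  have h3 : (volume : Measure (Z m)) (Metric.ball x0 (3 * D / 2)) =
      ENNReal.ofReal ((3 * D / 2) ^ (m + 2)) * volume (Metric.ball (0 : Z m) 1) := by
    rw [Measure.addHaar_ball _ _ (by positivity), finrankZ]
  rw [Finset.sum_congr rfl fun x _ => h2 x, Finset.sum_const, nsmul_eq_mul, h3, ← mul_assoc]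
    at h1
  have hb0 : (volume : Measure (Z m)) (Metric.ball (0 : Z m) 1) ≠ 0 :=
    (Metric.measure_ball_pos _ _ one_pos).ne'
  have hbt : (volume : Measure (Z m)) (Metric.ball (0 : Z m) 1) ≠ ⊤ :=
    measure_ball_lt_top.ne
  have h4 := (ENNReal.mul_le_mul_iff_left hb0 hbt).1 h1
  have h5 : (Q.card : ℝ≥0∞) = ENNReal.ofReal (Q.card : ℝ) := by
    rw [ENNReal.ofReal_natCast]
  rw [h5, ← ENNReal.ofReal_mul (Nat.cast_nonneg _),
    ENNReal.ofReal_le_ofReal_iff (by positivity)] at h4
  have h6 : 3 * D / w = (3 * D / 2) / (w / 2) := by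
    field_simp
  rw [h6, div_pow, le_div_iff₀ (by positivity)]
  exact h4

theorem pf_SLB : T_SLB := by
  intro m
  refine ⟨6 ^ (m + 2), one_le_pow₀ (by norm_num), ?_⟩
  intro c r w η α Q hc hc1 hw hwr hη hI hQ hx
  have hr : 0 < r := hw.trans_le hwr
  have hd : ∀ x ∈ Q, ∀ y ∈ Q, ‖x - y‖ ≤ 2 * r / c := by
    intro x hxQ y hyQ
    refine small hc hr.le hI (x - y) fun i => ?_
    rw [ph_sub, ← Lo_ph, ← Lo_ph]
    have h1 := abs_le.1 (hx x hxQ i)
    have h2 := abs_le.1 (hx y hyQ i)
    rw [abs_le]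
    constructor <;> linarith [h1.1, h1.2, h2.1, h2.2]
  have hD : w ≤ 2 * r / c := by
    rw [le_div_iff₀ hc]
    nlinarith
  refine (sepcount hw hD Q hQ hd).trans (le_of_eq ?_)
  rw [← mul_pow]
  congr 1
  field_simp
  ring

end Pool.Agent.H36.B2.SLB
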